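import Pool.Agent.helper60.XP.SpecD

set_option autoImplicit false

open Complex Metric Set Filter Topology MeasureTheory

noncomputable section

namespace XPD

theorem DGO_BB {k : ℕ} [NeZero k] (b g : ZMod k → ℂ) (i₀ : ZMod k) :
    MPS.BB (fun j => b (i₀ + j)) (fun j => g (i₀ + j)) = MPS.BB b g := by
  funext z
  unfold MPS.BB
  exact Fintype.sum_equiv (Equiv.addLeft i₀) _ _ (fun j => rfl)

theorem DGO_range {k : ℕ} [NeZero k] (b : ZMod k → ℂ) (i₀ : ZMod k) :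
    Set.range (fun j => b (i₀ + j)) = Set.range b := by
  ext z
  constructor
  · rintro ⟨j, rfl⟩
    exact ⟨i₀ + j, rfl⟩
  · rintro ⟨j, rfl⟩
    exact ⟨j - i₀, by simp⟩

theorem DGO_rho {k : ℕ} [NeZero k] (f : Polynomial ℂ) (b : ZMod k → ℂ) (i₀ : ZMod k) :
    PPS.rho f (fun j => b (i₀ + j)) = PPS.rho f b := by
  unfold PPS.rho
  exact Fintype.prod_equiv (Equiv.addLeft i₀) _ _ (fun j => rfl)

theorem DGO (hDEX : DEX_stmt) (hDIN : DIN_stmt) (hDSE : DSE_stmt) (hDTR : DTR_stmt)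
    (hDGB : DGB_stmt) : DGO_stmt := by
  intro L hL
  obtain ⟨C₁, hC₁, hT⟩ := hDTR L hL
  refine ⟨max C₁ 5, le_max_of_le_left hC₁, ?_⟩
  intro n k _ f b g μ lam e A r P rad E hHD hex hA hbP hr hE hinv
  have h1 : ∀ i : ZMod k, ∃ R : ℝ, Sc f b μ e i R := hDEX n k f b μ e L hHD
  choose R hR using h1
  obtain ⟨i₀, -, hi₀⟩ := Finset.exists_min_image (Finset.univ : Finset (ZMod k)) R
    ⟨0, Finset.mem_univ _⟩
  have hR0 : 0 < R i₀ := (hR i₀).pos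
  have hR0c : ((R i₀ : ℝ) : ℂ) ≠ 0 := by exact_mod_cast hR0.ne'
  have key : ∀ x : ℂ, (itf f k (b (i₀ + 0) + ((R (i₀ + 0) : ℝ) : ℂ) * x) - b (i₀ + 0)) /
      ((R (i₀ + 0) : ℝ) : ℂ) - μ * x =
      (itf f k (b i₀ + ((R i₀ : ℝ) : ℂ) * x) - b i₀ - μ * (((R i₀ : ℝ) : ℂ) * x)) /
        ((R i₀ : ℝ) : ℂ) := by
    intro x
    rw [add_zero]
    field_simp
  have nR : ‖((R i₀ : ℝ) : ℂ)‖ = R i₀ := by
    rw [Complex.norm_real, Real.norm_eq_abs, abs_of_pos hR0]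
  refine ⟨⟨k, inferInstance, f, fun j => b (i₀ + j), fun j => g (i₀ + j), r, P, rad, E,
    fun j => R (i₀ + j), lam, 1, 1, 1, 1⟩, ?_, rfl, rfl, DGO_rho f b i₀, ?_, ?_⟩
  · refine ⟨hHD.hn, hHD.hdeg, hHD.hk, ⟨?_, ?_, ?_⟩, ?_, ?_, ?_, le_max_of_le_left hC₁, hA, ?_, ?_, ?_,
      ?_, ?_, ?_, ?_, hr, ?_, ?_⟩
    · intro x y hxy
      exact add_left_cancel (hHD.cyc.inj hxy)
    · intro i
      show f.eval (b (i₀ + i)) = b (i₀ + (i + 1))
      rw [hHD.cyc.step, add_assoc]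
    · intro i
      exact hHD.cyc.ne0 _
    · intro i
      show g (i₀ + (i + 1)) = g (i₀ + i) / PPS.fd f (b (i₀ + i)) -
        PPS.fdd f (b (i₀ + i)) / PPS.fd f (b (i₀ + i)) ^ 2
      rw [← add_assoc]
      exact hex _
    · show 1 < ‖PPS.rho f (fun j => b (i₀ + j))‖
      rw [DGO_rho]
      exact hHD.rho1
    · show ‖PPS.rho f (fun j => b (i₀ + j))‖ ≤ 2
      rw [DGO_rho]
      exact hHD.rho2
    · intro i
      exact (hR _).pos
    · intro i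
      show R (i₀ + 0) ≤ R (i₀ + i)
      rw [add_zero]
      exact hi₀ _ (Finset.mem_univ _)
    · intro i j hj
      exact (hDIN n k f b μ e L hHD (i₀ + i) (R (i₀ + i)) (hR _)).1 j hj
    · intro i l hil
      exact hDSE n k f b μ e L hHD (i₀ + i) (i₀ + l) (R (i₀ + i)) (hR _)
        (fun h => hil (add_left_cancel h))
    · intro i j hj
      show ‖deriv (itf f j) (b (i₀ + i))‖ * R (i₀ + i) ≤ max C₁ 5 * R (i₀ + (i + (j : ZMod k)))
      have h2 := hT n k f b μ e hHD (i₀ + i) j (R (i₀ + i)) (R (i₀ + i + (j : ZMod k))) hj (hR _) (hR _)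
      rw [← add_assoc]
      exact h2.trans (mul_le_mul_of_nonneg_right (le_max_left _ _) (hR _).pos.le)
    · intro i
      exact (hDGB n k f b g μ e L hHD hex (i₀ + i) (R (i₀ + i)) (hR _)).trans (le_max_right _ _)
    · show XP.Eng n f (Set.range (fun j => b (i₀ + j)) ∪ P)
        (fun z => MPS.BB (fun j => b (i₀ + j)) (fun j => g (i₀ + j)) z + r z) rad E
      rw [DGO_range, DGO_BB]
      exact hE
    · intro i
      exact hbP _
    · intro i z hz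
      exact hinv (i₀ + i) (R (i₀ + i)) (hR _).pos
        (hDIN n k f b μ e L hHD (i₀ + i) (R (i₀ + i)) (hR _)).2 z hz
  · intro x hx
    show ‖(itf f k (b (i₀ + 0) + ((R (i₀ + 0) : ℝ) : ℂ) * x) - b (i₀ + 0)) /
      ((R (i₀ + 0) : ℝ) : ℂ) - μ * x‖ ≤ e * ‖x‖
    rw [key, norm_div, nR, div_le_iff₀ hR0]
    have hx' : ((R i₀ : ℝ) : ℂ) * x ∈ ball (0 : ℂ) (R i₀) := by
      rw [mem_ball_zero_iff] at hx ⊢
      rw [norm_mul, nR]
      nlinarith
    have h3 := (hR i₀).near _ hx'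
    rw [norm_mul, nR] at h3
    linarith
  · obtain ⟨y, hy, hy2⟩ := (hR i₀).far
    refine ⟨y / ((R i₀ : ℝ) : ℂ), ?_, ?_⟩
    · rw [norm_div, nR, hy, div_self hR0.ne']
    · show ‖(itf f k (b (i₀ + 0) + ((R (i₀ + 0) : ℝ) : ℂ) * (y / ((R i₀ : ℝ) : ℂ))) - b (i₀ + 0)) /
        ((R (i₀ + 0) : ℝ) : ℂ) - μ * (y / ((R i₀ : ℝ) : ℂ))‖ = e
      rw [key, norm_div, nR, div_eq_iff hR0.ne', mul_div_cancel₀ _ hR0c]
      exact hy2

end XPD
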