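import Pool.Agent.helper74.XP.SpecP

set_option autoImplicit false

open Complex Metric Set Filter Topology MeasureTheory MPS PPS Pool.Agent.helper16.Multibrot

noncomputable section

namespace XPP

theorem XFU (hFIN : FIN_stmt) (hEXU : EXU_stmt) (hLBU : LBU_stmt) : XFU_stmt := by
  intro n hn
  obtain ⟨ε, hε, h⟩ := hFIN n hn
  refine ⟨ε, hε, fun c hc hK => ?_⟩
  obtain ⟨K, hK⟩ := hK
  have hK1 : (0 : ℝ) < max K 1 := lt_max_of_lt_right one_pos
  obtain ⟨δ, hδ, hl⟩ := hLBU n (max K 1) hn hK1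
  have hLnn : ∀ O : CY (Polynomial.X ^ n + Polynomial.C c), 0 ≤ O.L := fun O =>
    Real.log_nonneg O.rep.le
  have hb : ∀ O : CY (Polynomial.X ^ n + Polynomial.C c), 2 ≤ O.k →
      ‖∑ i, O.g i‖ ≤ max K 1 * O.L := fun O hO =>
    (hK O hO).trans (mul_le_mul_of_nonneg_right (le_max_left _ _) (hLnn O))
  refine h (Polynomial.X ^ n + Polynomial.C c) 1 (fun O _ => ∑ i, O.g i) (max K 1) δ ?_ (by omega) hδ
    ?_ ?_
  · exact Polynomial.natDegree_X_pow_add_C
  · intro O hO hL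
    refine ⟨hl c O hc hO (hb O hO), fun m _ => ?_⟩
    refine (hb O hO).trans ?_
    nlinarith [hLnn O]
  · intro O J C a hS
    exact hEXU n c O J C a hn hc (hS 0 (by omega))

end XPP
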